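import Pool.Agent.Helper86.Speed.Renewal

/-! U3 (for MP_f07f0f_pr, helper97): a zero-one law. -/

namespace Pool.Agent.Helper97.Speed

open MeasureTheory Filter Topology ENNReal

theorem zero_one {Ω Ω' : Type*} {m0 : MeasurableSpace Ω} [MeasurableSpace Ω'] (μ : Measure Ω)
    [IsProbabilityMeasure μ] (ν : Measure Ω') [IsProbabilityMeasure ν] (ℱ : Filtration ℕ m0)
    (hℱ : ⨆ n, ℱ n = m0) (X : ℕ → Ω → ℝ) (hX : ∀ n, Measurable (X n)) (L : Ω' → ℝ)
    (hL : Measurable L) (c : ℝ≥0∞) (hc : c ≠ 0)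
    (h : ∀ n C, MeasurableSet[ℱ n] C → ∀ B : Set ℝ, MeasurableSet B →
      c * ν (L ⁻¹' B) * μ C ≤ μ ({ω | ∃ l ∈ B, Tendsto (fun n => X n ω) atTop (𝓝 l)} ∩ C)) :
    ∃ s : ℝ, ∀ᵐ ω ∂μ, Tendsto (fun n => X n ω) atTop (𝓝 s) := by
  classical
  set G : Set ℝ → Set Ω := fun B => {ω | ∃ l ∈ B, Tendsto (fun n => X n ω) atTop (𝓝 l)} with hG
  have hconv : MeasurableSet {ω | ∃ l, Tendsto (fun n => X n ω) atTop (𝓝 l)} :=
    measurableSet_exists_tendsto (l := atTop) (f := X) hX
  have hlim : Measurable (fun ω => limUnder atTop (fun n => X n ω)) :=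
    (StronglyMeasurable.limUnder (l := atTop) (f := X)
      (fun n => (hX n).stronglyMeasurable)).measurable
  have hGm : ∀ B, MeasurableSet B → MeasurableSet (G B) := by
    intro B hB
    have : G B = {ω | ∃ l, Tendsto (fun n => X n ω) atTop (𝓝 l)} ∩
        (fun ω => limUnder atTop (fun n => X n ω)) ⁻¹' B := by
      ext ω
      constructor
      · rintro ⟨l, hl, hl'⟩
        refine ⟨⟨l, hl'⟩, ?_⟩
        show limUnder atTop (fun n => X n ω) ∈ B
        rw [hl'.limUnder_eq]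
        exact hl
      · rintro ⟨⟨l, hl⟩, h2⟩
        refine ⟨l, ?_, hl⟩
        have h3 : limUnder atTop (fun n => X n ω) ∈ B := h2
        rwa [hl.limUnder_eq] at h3
    rw [this]
    exact hconv.inter (hlim hB)
  have hfull : ∀ B, MeasurableSet B → ν (L ⁻¹' B) ≠ 0 → μ (G B)ᶜ = 0 := by
    intro B hB hν
    refine Pool.Agent.Helper86.Speed.levy_full μ ℱ (G B) ?_ (c * ν (L ⁻¹' B))
      (mul_ne_zero hc hν) (fun n C hC => h n C hC B hB)
    rw [hℱ]
    exact hGm B hB
  obtain ⟨s, hs⟩ : ∃ s : ℝ, L =ᵐ[ν] Function.const Ω' s := by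
    refine Filter.exists_eventuallyEq_const_of_forall_separating (β := ℝ) MeasurableSet ?_
    intro U hU
    by_cases h1 : ν (L ⁻¹' U) = 0
    · right
      exact measure_eq_zero_iff_ae_notMem.1 h1
    · left
      by_cases h2 : ν (L ⁻¹' Uᶜ) = 0
      · have h3 := measure_eq_zero_iff_ae_notMem.1 h2
        filter_upwards [h3] with x hx
        by_contra hx'
        exact hx hx'
      · exfalso
        have h4 := hfull U hU h1
        have h5 := hfull Uᶜ hU.compl h2
        have h6 : (Set.univ : Set Ω) ⊆ (G U)ᶜ ∪ (G Uᶜ)ᶜ := by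
          intro ω _
          by_contra hcon
          rw [Set.mem_union, not_or, Set.notMem_compl_iff, Set.notMem_compl_iff] at hcon
          obtain ⟨⟨l, hl, hl'⟩, l', hl2, hl2'⟩ := hcon
          have := tendsto_nhds_unique hl' hl2'
          rw [this] at hl
          exact hl2 hl
        have h7 : μ Set.univ ≤ 0 := by
          calc μ Set.univ ≤ μ ((G U)ᶜ ∪ (G Uᶜ)ᶜ) := measure_mono h6
            _ ≤ μ (G U)ᶜ + μ (G Uᶜ)ᶜ := measure_union_le _ _
            _ = 0 := by rw [h4, h5, add_zero]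
        rw [measure_univ] at h7
        exact absurd h7 (by simp)
  refine ⟨s, ?_⟩
  have h8 : ν (L ⁻¹' {s}) ≠ 0 := by
    have h9 : ∀ᵐ x ∂ν, x ∈ L ⁻¹' {s} := by
      filter_upwards [hs] with x hx
      exact hx
    have h10 : ν (L ⁻¹' {s}) = 1 :=
      (prob_compl_eq_zero_iff (hL (measurableSet_singleton s))).1 h9
    rw [h10]
    exact one_ne_zero
  have h11 := hfull {s} (measurableSet_singleton s) h8
  have h12 : ∀ᵐ ω ∂μ, ω ∈ G {s} := h11
  filter_upwards [h12] with ω hω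
  obtain ⟨l, hl, hl'⟩ := hω
  rw [Set.mem_singleton_iff] at hl
  rwa [hl] at hl'

end Pool.Agent.Helper97.Speed
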