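import Pool.Agent.Helper97.Speed.WalkDefs
import Pool.Agent.Helper97.Speed.Code
import Pool.Agent.Helper58.Speed.Counting

/-! U4 (for MP_f07f0f_pr, helper97): sum over bad regions. -/

namespace Pool.Agent.Helper97.Speed

open MeasureTheory Filter Topology ENNReal

namespace BadSum

/-- the elementary inequality for one region -/
lemma term_le {α l : ℝ} (h1 : 2 / 3 < α) (h2 : α < 1) (hl0 : 0 < l) (hl1 : l < 1)
    (hr : α * (α * (1 - α) / 2) * (27 / 2) ≤ l ^ 12) (hb9 : 9 * (α * (1 - α) / 2) ≤ l ^ 12)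
    (M0 N b n : ℕ) (hb : 1 ≤ b) (hn : 1 ≤ n) (Q : Disc) (hQ : Q.WF) (hper : Q.per = b + n)
    (hcond : N + (M0 + 3) * n < 3 * Q.faces) :
    α ^ (Q.inn + (n - 1)) * (α * (1 - α) / 2) ^ (Q.faces - (Q.inn + (n - 1))) ≤
      (2 / 27 : ℝ) ^ Q.inn * ((α * (1 - α) / 2)⁻¹ * (l ^ N * (l ^ (6 * b) * (l ^ (M0 * n) *
        (1 / 9) ^ b)))) := by
  set β : ℝ := α * (1 - α) / 2 with hβ
  have hα0 : 0 < α := by linarith
  have hβ0 : 0 < β := by
    have : 0 < 1 - α := by linarith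
    positivity
  have hf := hQ.faces_eq
  have he : Q.faces - (Q.inn + (n - 1)) = Q.inn + (b - 1) := by omega
  rw [he]
  obtain ⟨c, rfl⟩ : ∃ c, b = c + 1 := ⟨b - 1, by omega⟩
  obtain ⟨k, rfl⟩ : ∃ k, n = k + 1 := ⟨n - 1, by omega⟩
  simp only [Nat.add_sub_cancel]
  set i := Q.inn with hi
  have hexp : N + (6 * (c + 1) + M0 * (k + 1)) ≤ 12 * i + 12 * (c + 1) := by
    have : (M0 + 3) * (k + 1) = M0 * (k + 1) + 3 * (k + 1) := by ring
    omega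
  have e1 : α ^ (i + k) * β ^ (i + c) = α ^ k * ((2 / 27 : ℝ) ^ i * (β⁻¹ *
      (((α * β * (27 / 2)) ^ i * (9 * β) ^ (c + 1)) * (1 / 9) ^ (c + 1)))) := by
    have h3 : (2 / 27 : ℝ) ^ i * (α * β * (27 / 2)) ^ i = α ^ i * β ^ i := by
      rw [← mul_pow, ← mul_pow]
      congr 1
      ring
    have h4 : (9 * β) ^ (c + 1) * (1 / 9) ^ (c + 1) = β ^ (c + 1) := by
      rw [← mul_pow]
      congr 1
      ring
    calc α ^ (i + k) * β ^ (i + c) = α ^ k * ((α ^ i * β ^ i) * (β⁻¹ * β ^ (c + 1))) := by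
          rw [pow_succ β c, pow_add, pow_add]
          field_simp
      _ = α ^ k * (((2 / 27 : ℝ) ^ i * (α * β * (27 / 2)) ^ i) *
          (β⁻¹ * ((9 * β) ^ (c + 1) * (1 / 9) ^ (c + 1)))) := by rw [h3, h4]
      _ = _ := by ring
  rw [e1]
  have h5 : α ^ k ≤ 1 := pow_le_one₀ hα0.le h2.le
  have h6 : (α * β * (27 / 2)) ^ i * (9 * β) ^ (c + 1) ≤
      l ^ N * (l ^ (6 * (c + 1)) * l ^ (M0 * (k + 1))) := by
    have h7 : (α * β * (27 / 2)) ^ i ≤ (l ^ 12) ^ i := pow_le_pow_left₀ (by positivity) hr i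
    have h8 : (9 * β) ^ (c + 1) ≤ (l ^ 12) ^ (c + 1) := pow_le_pow_left₀ (by positivity) hb9 _
    calc (α * β * (27 / 2)) ^ i * (9 * β) ^ (c + 1) ≤ (l ^ 12) ^ i * (l ^ 12) ^ (c + 1) :=
          mul_le_mul h7 h8 (by positivity) (by positivity)
      _ = l ^ (12 * i + 12 * (c + 1)) := by rw [← pow_mul, ← pow_mul, ← pow_add]
      _ ≤ l ^ (N + (6 * (c + 1) + M0 * (k + 1))) := pow_le_pow_of_le_one hl0.le hl1.le hexp
      _ = _ := by rw [pow_add, pow_add]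
  have h9 : (2 / 27 : ℝ) ^ i * (β⁻¹ *
      (((α * β * (27 / 2)) ^ i * (9 * β) ^ (c + 1)) * (1 / 9) ^ (c + 1))) ≤
      (2 / 27 : ℝ) ^ i * (β⁻¹ *
      ((l ^ N * (l ^ (6 * (c + 1)) * l ^ (M0 * (k + 1)))) * (1 / 9) ^ (c + 1))) := by
    gcongr
  have h10 : 0 ≤ (2 / 27 : ℝ) ^ i * (β⁻¹ *
      (((α * β * (27 / 2)) ^ i * (9 * β) ^ (c + 1)) * (1 / 9) ^ (c + 1))) := by positivity
  calc α ^ k * ((2 / 27 : ℝ) ^ i * (β⁻¹ *
      (((α * β * (27 / 2)) ^ i * (9 * β) ^ (c + 1)) * (1 / 9) ^ (c + 1)))) ≤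
        1 * ((2 / 27 : ℝ) ^ i * (β⁻¹ *
      (((α * β * (27 / 2)) ^ i * (9 * β) ^ (c + 1)) * (1 / 9) ^ (c + 1)))) := by
        exact mul_le_mul_of_nonneg_right h5 h10
    _ ≤ _ := by rw [one_mul]; refine h9.trans (le_of_eq (by ring))

lemma exists_l (x : ℝ) (hx0 : 0 ≤ x) (hx : x < 1) : ∃ l : ℝ, 0 < l ∧ l < 1 ∧ x ≤ l ^ 12 := by
  refine ⟨1 - (1 - x) / 12, by linarith, by linarith, ?_⟩
  have h := one_add_mul_le_pow (a := -((1 - x) / 12)) (by linarith) 12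
  have e : (1 + -((1 - x) / 12)) = 1 - (1 - x) / 12 := by ring
  rw [e] at h
  refine le_trans (le_of_eq ?_) h
  push_cast
  ring

lemma theta_lt {α : ℝ} (h1 : 2 / 3 < α) (h2 : α < 1) : α * (α * (1 - α) / 2) * (27 / 2) < 1 := by
  nlinarith [mul_pos (sub_pos.2 h1) (sub_pos.2 h1), mul_pos (mul_pos (sub_pos.2 h1) (sub_pos.2 h1))
    (by linarith : (0 : ℝ) < α + 1 / 3)]

lemma beta_lt {α : ℝ} (h1 : 2 / 3 < α) : 9 * (α * (1 - α) / 2) < 1 := by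
  nlinarith

/-- the sum over the codes -/
lemma inner_sum {α l : ℝ} (h1 : 2 / 3 < α) (h2 : α < 1) (hl0 : 0 < l) (hl1 : l < 1)
    (hr : α * (α * (1 - α) / 2) * (27 / 2) ≤ l ^ 12) (hb9 : 9 * (α * (1 - α) / 2) ≤ l ^ 12)
    (M0 N : ℕ) (hM : 9 * l ^ M0 ≤ 1 / 2) (i b n : ℕ) :
    (∑' Q : {Q : Disc // Q.WF}, (open Classical in if 1 ≤ b ∧ 1 ≤ n ∧ i < b ∧
          Q.1.per = b + n ∧ N + (M0 + 3) * n < 3 * Q.1.faces then
        ENNReal.ofReal (α ^ (Q.1.inn + (n - 1)) *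
          (α * (1 - α) / 2) ^ (Q.1.faces - (Q.1.inn + (n - 1)))) else 0)) ≤
      ENNReal.ofReal ((α * (1 - α) / 2)⁻¹ * l ^ N) * (ENNReal.ofReal ((l ^ 3) ^ i) *
        (ENNReal.ofReal ((l ^ 3) ^ b) * ENNReal.ofReal ((1 / 2) ^ n))) := by
  classical
  set β : ℝ := α * (1 - α) / 2 with hβ
  have hα0 : 0 < α := by linarith
  have hβ0 : 0 < β := by
    have : 0 < 1 - α := by linarith
    positivity
  by_cases hc : 1 ≤ b ∧ 1 ≤ n ∧ i < b
  · obtain ⟨hb, hn, hib⟩ := hc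
    set K : ℝ := β⁻¹ * (l ^ N * (l ^ (6 * b) * (l ^ (M0 * n) * (1 / 9) ^ b))) with hK
    have hK0 : 0 ≤ K := by positivity
    set F : Disc → ℝ≥0∞ := fun Q => ENNReal.ofReal ((2 / 27 : ℝ) ^ Q.inn) * ENNReal.ofReal K
      with hF
    have hstep : ∀ Q : {Q : Disc // Q.WF}, (if 1 ≤ b ∧ 1 ≤ n ∧ i < b ∧
          Q.1.per = b + n ∧ N + (M0 + 3) * n < 3 * Q.1.faces then
        ENNReal.ofReal (α ^ (Q.1.inn + (n - 1)) *
          β ^ (Q.1.faces - (Q.1.inn + (n - 1)))) else 0) ≤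
        {Q : Disc | Q.per = b + n}.indicator F Q.1 := by
      intro Q
      split_ifs with h
      · obtain ⟨_, _, _, h5, h6⟩ := h
        have h7 : Q.1 ∈ {Q : Disc | Q.per = b + n} := h5
        rw [Set.indicator_of_mem h7, hF]
        show _ ≤ ENNReal.ofReal ((2 / 27 : ℝ) ^ Q.1.inn) * ENNReal.ofReal K
        rw [← ENNReal.ofReal_mul (by positivity)]
        exact ENNReal.ofReal_le_ofReal (term_le h1 h2 hl0 hl1 hr hb9 M0 N b n hb hn Q.1 Q.2 h5 h6)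
      · exact zero_le
    refine le_trans (ENNReal.tsum_le_tsum hstep) ?_
    have e1 : ∑' Q : {Q : Disc // Q.WF}, {Q : Disc | Q.per = b + n}.indicator F Q.1 =
        ∑' Q : {Q : Disc // Q.WF ∧ Q.per = b + n}, F Q.1 := by
      have h3 := tsum_subtype {Q : Disc | Q.WF} ({Q : Disc | Q.per = b + n}.indicator F)
      have h4 := tsum_subtype {Q : Disc | Q.WF ∧ Q.per = b + n} F
      refine Eq.trans h3 (Eq.trans ?_ h4.symm)
      refine tsum_congr (fun Q => ?_)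
      by_cases ha : Q.WF
      · by_cases hp : Q.per = b + n
        · simp [Set.indicator, ha, hp]
        · simp [Set.indicator, hp]
      · simp [Set.indicator, ha]
    rw [e1]
    simp only [hF]
    rw [ENNReal.tsum_mul_right]
    have h5 := Pool.Agent.Helper97.Speed.tsum_disc_le (b + n) (by omega)
    refine le_trans (mul_le_mul_left h5 _) ?_
    have h9 : (9 : ℝ≥0∞) ^ (b + n) = ENNReal.ofReal ((9 : ℝ) ^ (b + n)) := by
      rw [ENNReal.ofReal_pow (by norm_num)]; norm_num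
    rw [h9, ← ENNReal.ofReal_mul (by positivity), ← ENNReal.ofReal_mul (by positivity),
      ← ENNReal.ofReal_mul (by positivity), ← ENNReal.ofReal_mul (by positivity)]
    refine ENNReal.ofReal_le_ofReal ?_
    have e2 : (9 : ℝ) ^ (b + n) * K = β⁻¹ * l ^ N * (l ^ (6 * b) * (9 * l ^ M0) ^ n) := by
      rw [hK, pow_add, mul_pow, ← pow_mul, one_div, inv_pow]
      field_simp
    rw [e2]
    have h10 : (9 * l ^ M0) ^ n ≤ (1 / 2) ^ n := pow_le_pow_left₀ (by positivity) hM n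
    have h11 : l ^ (6 * b) ≤ (l ^ 3) ^ i * (l ^ 3) ^ b := by
      rw [← pow_mul, ← pow_mul, ← pow_add]
      exact pow_le_pow_of_le_one hl0.le hl1.le (by omega)
    calc β⁻¹ * l ^ N * (l ^ (6 * b) * (9 * l ^ M0) ^ n) ≤
        β⁻¹ * l ^ N * (((l ^ 3) ^ i * (l ^ 3) ^ b) * (1 / 2) ^ n) := by gcongr
      _ = _ := by ring
  · have h0 : ∀ Q : {Q : Disc // Q.WF}, (if 1 ≤ b ∧ 1 ≤ n ∧ i < b ∧
          Q.1.per = b + n ∧ N + (M0 + 3) * n < 3 * Q.1.faces then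
        ENNReal.ofReal (α ^ (Q.1.inn + (n - 1)) *
          β ^ (Q.1.faces - (Q.1.inn + (n - 1)))) else 0) = 0 := by
      intro Q
      rw [if_neg]
      rintro ⟨h3, h4, h5, _⟩
      exact hc ⟨h3, h4, h5⟩
    rw [tsum_congr h0, tsum_zero]
    exact zero_le

lemma geom (x : ℝ) (h0 : 0 ≤ x) (h1 : x < 1) :
    ∑' i : ℕ, ENNReal.ofReal (x ^ i) = ENNReal.ofReal (1 - x)⁻¹ := by
  rw [← ENNReal.ofReal_tsum_of_nonneg (fun n => pow_nonneg h0 n)
    (summable_geometric_of_lt_one h0 h1), tsum_geometric_of_lt_one h0 h1]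

end BadSum

open BadSum in
theorem bad_sum (α : ℝ) (h1 : 2 / 3 < α) (h2 : α < 1) : ∃ (M : ℕ) (C q : ℝ), 0 < M ∧ 0 < C ∧
    0 < q ∧ q < 1 ∧ ∀ N : ℕ, ∑' t : ℕ × ℕ × ℕ × {Q : Disc // Q.WF},
      (open Classical in if 1 ≤ t.2.1 ∧ 1 ≤ t.2.2.1 ∧ t.1 < t.2.1 ∧
          t.2.2.2.1.per = t.2.1 + t.2.2.1 ∧ N + M * t.2.2.1 < 3 * t.2.2.2.1.faces then
        ENNReal.ofReal (α ^ (t.2.2.2.1.inn + (t.2.2.1 - 1)) *
          (α * (1 - α) / 2) ^ (t.2.2.2.1.faces - (t.2.2.2.1.inn + (t.2.2.1 - 1)))) else 0) ≤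
      ENNReal.ofReal (C * q ^ N) := by
  classical
  have hα0 : 0 < α := by linarith
  have hβ0 : 0 < α * (1 - α) / 2 := by
    have : 0 < 1 - α := by linarith
    positivity
  obtain ⟨l, hl0, hl1, hl⟩ := exists_l
    (max (α * (α * (1 - α) / 2) * (27 / 2)) (9 * (α * (1 - α) / 2)))
    (le_max_of_le_right (by positivity)) (max_lt (theta_lt h1 h2) (beta_lt h1))
  have hr := le_trans (le_max_left _ _) hl
  have hb9 := le_trans (le_max_right _ _) hl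
  obtain ⟨M0, hM0⟩ := exists_pow_lt_of_lt_one (show (0 : ℝ) < 1 / 18 by norm_num) hl1
  have hM : 9 * l ^ M0 ≤ 1 / 2 := by linarith
  have hl3 : l ^ 3 < 1 := pow_lt_one₀ hl0.le hl1 (by norm_num)
  have hl30 : 0 < l ^ 3 := by positivity
  refine ⟨M0 + 3, (α * (1 - α) / 2)⁻¹ * ((1 - l ^ 3)⁻¹ * ((1 - l ^ 3)⁻¹ * (1 - 1 / 2)⁻¹)), l,
    by omega, ?_, hl0, hl1, ?_⟩
  · have : 0 < 1 - l ^ 3 := by linarith
    positivity
  · intro N
    rw [ENNReal.tsum_prod']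
    have hb : ∀ i : ℕ, ∑' t : ℕ × ℕ × {Q : Disc // Q.WF},
        (if 1 ≤ t.1 ∧ 1 ≤ t.2.1 ∧ i < t.1 ∧
          t.2.2.1.per = t.1 + t.2.1 ∧ N + (M0 + 3) * t.2.1 < 3 * t.2.2.1.faces then
        ENNReal.ofReal (α ^ (t.2.2.1.inn + (t.2.1 - 1)) *
          (α * (1 - α) / 2) ^ (t.2.2.1.faces - (t.2.2.1.inn + (t.2.1 - 1)))) else 0) ≤
        ENNReal.ofReal ((α * (1 - α) / 2)⁻¹ * l ^ N) * (ENNReal.ofReal ((l ^ 3) ^ i) *
          (ENNReal.ofReal (1 - l ^ 3)⁻¹ * ENNReal.ofReal (1 - 1 / 2)⁻¹)) := by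
      intro i
      rw [ENNReal.tsum_prod']
      have hbb : ∀ b : ℕ, ∑' t : ℕ × {Q : Disc // Q.WF},
          (if 1 ≤ b ∧ 1 ≤ t.1 ∧ i < b ∧
            t.2.1.per = b + t.1 ∧ N + (M0 + 3) * t.1 < 3 * t.2.1.faces then
          ENNReal.ofReal (α ^ (t.2.1.inn + (t.1 - 1)) *
            (α * (1 - α) / 2) ^ (t.2.1.faces - (t.2.1.inn + (t.1 - 1)))) else 0) ≤
          ENNReal.ofReal ((α * (1 - α) / 2)⁻¹ * l ^ N) * (ENNReal.ofReal ((l ^ 3) ^ i) *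
            (ENNReal.ofReal ((l ^ 3) ^ b) * ENNReal.ofReal (1 - 1 / 2)⁻¹)) := by
        intro b
        rw [ENNReal.tsum_prod']
        refine le_trans (ENNReal.tsum_le_tsum
          (fun n => inner_sum h1 h2 hl0 hl1 hr hb9 M0 N hM i b n)) ?_
        rw [ENNReal.tsum_mul_left, ENNReal.tsum_mul_left, ENNReal.tsum_mul_left,
          geom (1 / 2) (by norm_num) (by norm_num)]
      refine le_trans (ENNReal.tsum_le_tsum hbb) ?_
      rw [ENNReal.tsum_mul_left, ENNReal.tsum_mul_left, ENNReal.tsum_mul_right,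
        geom (l ^ 3) hl30.le hl3]
    refine le_trans (ENNReal.tsum_le_tsum hb) ?_
    rw [ENNReal.tsum_mul_left, ENNReal.tsum_mul_right, geom (l ^ 3) hl30.le hl3]
    have h3 : 0 ≤ (1 - l ^ 3)⁻¹ := by
      have : 0 < 1 - l ^ 3 := by linarith
      positivity
    rw [← ENNReal.ofReal_mul h3, ← ENNReal.ofReal_mul h3, ← ENNReal.ofReal_mul (by positivity)]
    refine ENNReal.ofReal_le_ofReal (le_of_eq ?_)
    ring

end Pool.Agent.Helper97.Speed
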